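import Pool.Agent.W610.HY.Stm

set_option autoImplicit false

namespace Pool.Agent.W53.HY.POLY

open Pool.Agent.W610.HY
open Metric Complex

/-- positivity of the period -/
theorem hT : Fact ((0 : ℝ) < 2 * Real.pi) := ⟨by positivity⟩

/-- powers -/
theorem fourier_nat (n : ℕ) (x : AddCircle (2 * Real.pi)) :
    fourier (n : ℤ) x = (fourier 1 x) ^ n := by
  induction n with
  | zero => simp
  | succ n ih =>
    rw [Nat.cast_succ, fourier_add, ih, pow_succ]

theorem key (q : C(AddCircle (2 * Real.pi), ℂ))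
    (hq : q ∈ Submodule.span ℂ (Set.range (@fourier (2 * Real.pi)))) :
    ∀ c : ℂ, ∃ p : Polynomial ℂ, ∀ x, (p.eval (fourier 1 x)).re = (c * q x).re := by
  induction hq using Submodule.span_induction with
  | mem q hq =>
    obtain ⟨n, rfl⟩ := hq
    intro c
    rcases Int.le_total 0 n with hn | hn
    · obtain ⟨m, rfl⟩ := Int.eq_ofNat_of_zero_le hn
      refine ⟨Polynomial.C c * Polynomial.X ^ m, fun x => ?_⟩
      rw [Polynomial.eval_mul, Polynomial.eval_C, Polynomial.eval_pow, Polynomial.eval_X]
      have h := fourier_nat m x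
      rw [← h]
    · obtain ⟨m, hm⟩ := Int.eq_ofNat_of_zero_le (Int.neg_nonneg_of_nonpos hn)
      refine ⟨Polynomial.C (starRingEnd ℂ c) * Polynomial.X ^ m, fun x => ?_⟩
      rw [Polynomial.eval_mul, Polynomial.eval_C, Polynomial.eval_pow, Polynomial.eval_X]
      have h := fourier_nat m x
      rw [← h]
      have h2 : n = -(m : ℤ) := by
        have : -n = (m : ℤ) := hm
        omega
      rw [h2, fourier_neg]
      have h3 : c * (starRingEnd ℂ) (fourier (m : ℤ) x) =
          (starRingEnd ℂ) ((starRingEnd ℂ) c * fourier (m : ℤ) x) := by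
        rw [map_mul, Complex.conj_conj]
      rw [h3, Complex.conj_re]
  | zero =>
    intro c
    exact ⟨0, fun x => by simp⟩
  | add a b _ _ ha hb =>
    intro c
    obtain ⟨p, hp⟩ := ha c
    obtain ⟨p', hp'⟩ := hb c
    refine ⟨p + p', fun x => ?_⟩
    rw [Polynomial.eval_add, Complex.add_re, hp, hp', ContinuousMap.add_apply, mul_add,
      Complex.add_re]
  | smul d a _ ha =>
    intro c
    obtain ⟨p, hp⟩ := ha (c * d)
    refine ⟨p, fun x => ?_⟩
    rw [hp, ContinuousMap.smul_apply, smul_eq_mul, mul_assoc]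

theorem main : Pool.Agent.W610.HY.POLY := by
  intro f hf ε hε
  have := hT
  have hnorm : ∀ x : AddCircle (2 * Real.pi), (fourier 1 x) ∈ sphere (0 : ℂ) 1 := by
    intro x
    rw [fourier_apply, mem_sphere_zero_iff_norm]
    exact Circle.norm_coe _
  have hc : Continuous fun x : AddCircle (2 * Real.pi) => f (fourier 1 x) :=
    hf.comp_continuous (fourier 1).continuous hnorm
  let g : C(AddCircle (2 * Real.pi), ℂ) :=
    ⟨fun x => ((f (fourier 1 x) + ε / 2 : ℝ) : ℂ),
      Complex.continuous_ofReal.comp (hc.add continuous_const)⟩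
  have hg : g ∈ (Submodule.span ℂ (Set.range (@fourier (2 * Real.pi)))).topologicalClosure := by
    rw [span_fourier_closure_eq_top]
    trivial
  rw [← SetLike.mem_coe, Submodule.topologicalClosure_coe, Metric.mem_closure_iff] at hg
  obtain ⟨q, hq, hgq⟩ := hg (ε / 2) (by positivity)
  obtain ⟨p, hp⟩ := key q hq 1
  refine ⟨p - Polynomial.C (Complex.I * ((p.eval 0).im : ℂ)), ?_, ?_⟩
  · simp
  · intro z hz
    have hx : fourier 1 ((Complex.arg z : ℝ) : AddCircle (2 * Real.pi)) = z := by
      rw [fourier_coe_apply]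
      have h1 : 2 * (Real.pi : ℂ) * Complex.I * ((1 : ℤ) : ℂ) * (Complex.arg z : ℂ) /
          ((2 * Real.pi : ℝ) : ℂ) = (Complex.arg z : ℂ) * Complex.I := by
        have : (Real.pi : ℂ) ≠ 0 := by exact_mod_cast Real.pi_ne_zero
        push_cast
        field_simp
      rw [h1]
      have h2 := Complex.norm_mul_exp_arg_mul_I z
      rw [hz, Complex.ofReal_one, one_mul] at h2
      exact h2
    have h1 := hp ((Complex.arg z : ℝ) : AddCircle (2 * Real.pi))
    rw [hx, one_mul] at h1
    have h2 : ‖g ((Complex.arg z : ℝ) : AddCircle (2 * Real.pi)) -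
        q ((Complex.arg z : ℝ) : AddCircle (2 * Real.pi))‖ < ε / 2 := by
      rw [← dist_eq_norm]
      exact (ContinuousMap.dist_apply_le_dist _).trans_lt hgq
    have h3 : (g ((Complex.arg z : ℝ) : AddCircle (2 * Real.pi))).re = f z + ε / 2 := by
      show (((f (fourier 1 ((Complex.arg z : ℝ) : AddCircle (2 * Real.pi))) + ε / 2 : ℝ) : ℂ)).re = _
      rw [hx, Complex.ofReal_re]
    have h4 := (Complex.abs_re_le_norm _).trans_lt h2
    rw [Complex.sub_re, h3, abs_lt] at h4
    have h5 : (Polynomial.eval z (p - Polynomial.C (Complex.I * ((p.eval 0).im : ℂ)))).re =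
        (p.eval z).re := by
      simp
    rw [h5, h1]
    constructor
    · linarith [h4.2]
    · linarith [h4.1]

end Pool.Agent.W53.HY.POLY
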